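import Pool.Agent.H39.G4.Don
import Pool.Agent.H35.G4.DisE

/-!
# The donor side, for the definitions of `H35/G4/DisE`
-/

set_option autoImplicit false

namespace Pool.Agent.H39.G4

open Relation Pool.Agent.H13.DA Pool.Agent.H21.G4 Pool.Agent.H96.G4 Pool.Agent.H32.G4
open Pool.Agent.H13.G4 Pool.Agent.H72.G4
open Pool.Agent.H35.G4 (ask Akr akp kb inn mem_inn Nsp Qd)
open CT

variable {V : Type*} [DecidableEq V] {T X : Finset (V × V × V)} {D : V → V → Prop} {a b c : V}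
  {Z : List V}

omit [DecidableEq V] in
theorem qd_qz {u o f i d : V} (h : Qd T D d u o f i) : Qz T D u o f i d :=
  ⟨h.nr, h.nb, Or.inl ⟨h.ao, h.of, h.fi, h.ia⟩⟩

/-- the two spokes of the asked corner are on mid corners -/
theorem akr_mid (hT : Ts T D a b c) {u o f i d : V} (ha : Akr T D u d)
    (h : Qd T D d u o f i) : MidS T D u o ∧ MidS T D u i := by
  have cx := hT.pl.disc.cx
  obtain ⟨h1, x, w, R, hw, t1, t2⟩ := ha
  have e0 : w 0 = m := by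
    rcases hw with hw | hw <;> simp [List.ofFn_succ] at hw <;> exact hw.1
  have e2 : w 2 = m := by
    rcases hw with hw | hw <;> simp [List.ofFn_succ] at hw <;> exact hw.2.2.1
  have rx : ∀ k, Ar D u (x k) := fun k => (R.nb _).2 ⟨k, rfl⟩
  have f1 : (0 : Fin 6) + 1 = 1 := rfl
  have f2 : (2 : Fin 6) + 1 = 3 := rfl
  have c0 := R.cor 0
  have c2 := R.cor 2
  rw [e0, f1] at c0
  rw [e2, f2] at c2
  have m1 : MidS T D u (x 1) :=
    ⟨x 0, (ar_re (rx 0)).2, Or.inr c0.1, by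
      rcases c0.2 with ⟨k1, k2, k3⟩ | ⟨k1, k2, k3⟩
      · exact Or.inr ⟨k1, k2, k3⟩
      · exact Or.inl ⟨k2, k1, k3⟩⟩
  have m2 : MidS T D u (x 2) :=
    ⟨x 3, (ar_re (rx 3)).2, Or.inl c2.1, by
      rcases c2.2 with ⟨k1, k2, k3⟩ | ⟨k1, k2, k3⟩
      · exact Or.inl ⟨k1, k2, k3⟩
      · exact Or.inr ⟨k2, k1, k3⟩⟩
  have hz := qd_qz h
  have k1 : x 1 = o ∨ x 1 = i := by
    have had : Adj T d (x 1) := Or.inr ⟨u, cx.rot t1⟩
    rcases (hz.adj _).1 had with e | e | e | e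
    · exact absurd e.symm (ar_ne cx hT.pl (rx 1))
    · exact Or.inl e
    · exact absurd (e ▸ rx 1) (qz_far hT hz)
    · exact Or.inr e
  have k2 : x 2 = o ∨ x 2 = i := by
    have had : Adj T d (x 2) := Or.inl ⟨u, cx.rot t2⟩
    rcases (hz.adj _).1 had with e | e | e | e
    · exact absurd e.symm (ar_ne cx hT.pl (rx 2))
    · exact Or.inl e
    · exact absurd (e ▸ rx 2) (qz_far hT hz)
    · exact Or.inr e
  have k3 : x 1 ≠ x 2 := fun e => absurd (R.inj e) (by decide)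
  rcases k1 with k1 | k1 <;> rcases k2 with k2 | k2
  · exact absurd (k1.trans k2.symm) k3
  · exact ⟨k1 ▸ m1, k2 ▸ m2⟩
  · exact ⟨k2 ▸ m2, k1 ▸ m1⟩
  · exact absurd (k1.trans k2.symm) k3

/-- the rule of `DisE` gives the rule of `Dis` -/
theorem ask_don (hT : Ts T D a b c) {u d v : V} (ha : Akr T D u d)
    (h : Pool.Agent.H35.G4.Ask T D Z u d v) (hv : v ∉ Z) : Don T D Z u d v := by
  obtain ⟨o, f, i, hq, h⟩ := h
  obtain ⟨m1, m2⟩ := akr_mid hT ha hq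
  have hz := qd_qz hq
  rcases h with ⟨h1, rfl⟩ | ⟨_, h1, rfl⟩ | ⟨_, _, h1, rfl⟩ | ⟨oZ, iZ, fZ, h⟩
  · exact absurd h1 hv
  · exact absurd h1 hv
  · exact absurd h1 hv
  · rcases h with ⟨s1', s2', rfl⟩ | ⟨s1', s2', rfl⟩ | ⟨s1', s2', rfl⟩
    · exact ⟨o, v, i, hz, m1, m2, Or.inr (Or.inr ⟨oZ, iZ, fZ, Or.inr ⟨rfl, s2', s1'⟩⟩)⟩
    · exact ⟨v, f, i, hz, m1, m2, Or.inr (Or.inr ⟨oZ, iZ, fZ, Or.inl ⟨rfl, s2', s1'⟩⟩)⟩
    · exact ⟨v, f, o, hz.mir, m2, m1, Or.inr (Or.inr ⟨iZ, oZ, fZ, Or.inl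
        ⟨rfl, sh_comm hT s1', fun k => s2' (sh_comm hT k)⟩⟩)⟩

/-- **the donor side** -/
theorem don_side [Infinite V] (hT : Ts T D a b c) (hR : Reg T X D Z) {u d v : V}
    (hu : In X D Z u) (hv : In X D Z v) (ha : Akr T D u d)
    (h : Pool.Agent.H35.G4.Ask T D Z u d v) {n : ℕ} {x : Fin (n + 1) → V}
    {w : Fin (n + 1) → CT} (R : Rot T D v n x w) :
    ∃ j, w j = q ∧ (v, x j, d) ∈ T ∧ (v, d, x (j + 1)) ∈ T ∧
      ask (w (j - 1)) (w j) (w (j + 1)) = true ∧ ¬ PCok T X D Z v x j := by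
  obtain ⟨j, h1, h2, h3, h4⟩ := donor hT hR hu hv (ask_don hT ha h hv.2.2) R
  refine ⟨j, ?_, h1, h2, h3, h4⟩
  have h5 : Pool.Agent.H35.G4.ceq (w j) q = true := by
    unfold ask at h3
    rw [Bool.and_eq_true] at h3
    exact h3.1
  exact Pool.Agent.H35.G4.ceq_iff.1 h5

/-- **at most one asker for a donor and a dummy** -/
theorem don_uniq (hT : Ts T D a b c) {u u' d v : V} (hv : v ∉ Z) (ha : Akr T D u d)
    (ha' : Akr T D u' d) (h : Pool.Agent.H35.G4.Ask T D Z u d v)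
    (h' : Pool.Agent.H35.G4.Ask T D Z u' d v) : u = u' :=
  donor_uniq hT hv (ask_don hT ha h hv) (ask_don hT ha' h' hv)

open Classical in
/-- **the number of asks at an inner vertex** -/
theorem kb_le [Infinite V] (hT : Ts T D a b c) (hR : Reg T X D Z) {v : V}
    (hv : In X D Z v) {n : ℕ} {x : Fin (n + 1) → V} {w : Fin (n + 1) → CT}
    (R : Rot T D v n x w) :
    kb T X D Z v ≤ (Finset.univ.filter (fun j => ask (w (j - 1)) (w j) (w (j + 1)) = true ∧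
      ¬ PCok T X D Z v x j)).card := by
  refine donor_card hT hR hv R _ ?_
  intro p hp
  rw [Finset.mem_filter, akp, Finset.mem_filter, Finset.mem_product] at hp
  obtain ⟨⟨⟨h1, _⟩, h2⟩, h3⟩ := hp
  exact ⟨mem_inn.1 h1, ask_don hT h2 h3 hv.2.2⟩

end Pool.Agent.H39.G4
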