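import Pool.Agent.H39.G4.DonE
import Pool.Agent.H13.G4.Bdi

/-!
# The requests of the `X1` vertices at an inner vertex
-/

set_option autoImplicit false

namespace Pool.Agent.H39.G4

open Relation Pool.Agent.H13.DA Pool.Agent.H21.G4 Pool.Agent.H96.G4 Pool.Agent.H32.G4
open Pool.Agent.H13.G4 Pool.Agent.H72.G4
open Pool.Agent.H35.G4 (rqL rqR ceq ceq_iff tR tL tb inn mem_inn Nsp X1v Req)
open CT

variable {V : Type*} [DecidableEq V] {T X : Finset (V × V × V)} {D : V → V → Prop} {a b c : V}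
  {Z : List V}

omit [DecidableEq V] in
/-- three consecutive neighbours `p, v, e` of `u` in the same direction, with increasing (or
decreasing) arcs: the two corners have type `s2, s2` or `s1, s1` -/
theorem two_cor (hT : Ts T D a b c) {u p v e : V} (h1 : Face T u p v) (h2 : Face T u v e)
    (hpe : p ≠ e)
    (hd : (D u p ∧ D u v ∧ D u e ∧ D p v ∧ D v e) ∨ (D p u ∧ D v u ∧ D e u ∧ D v p ∧ D e v))
    {n : ℕ} {x : Fin (n + 1) → V} {w : Fin (n + 1) → CT} (R : Rot T D u n x w) :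
    ∃ i, x (i + 1) = v ∧ ((x (i + 1 + 1) = e ∧ w i = s2 ∧ w (i + 1) = s2) ∨
      (x i = e ∧ w i = s1 ∧ w (i + 1) = s1)) := by
  have cx := hT.pl.disc.cx
  have as := hT.pl.asymm
  have auv : Ar D u v := by
    rcases hd with ⟨k1, k2, k3, k4, k5⟩ | ⟨k1, k2, k3, k4, k5⟩
    · exact Or.inl k2
    · exact Or.inr k2
  have aup : Ar D u p := by
    rcases hd with ⟨k1, k2, k3, k4, k5⟩ | ⟨k1, k2, k3, k4, k5⟩
    · exact Or.inl k1
    · exact Or.inr k1
  have aue : Ar D u e := by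
    rcases hd with ⟨k1, k2, k3, k4, k5⟩ | ⟨k1, k2, k3, k4, k5⟩
    · exact Or.inl k3
    · exact Or.inr k3
  have vr := (ar_re auv).2
  have pr := (ar_re aup).2
  have er := (ar_re aue).2
  obtain ⟨k, hk⟩ := (R.nb v).1 auv
  have f1 : k - 1 + 1 = k := sub_add_cancel k 1
  -- the previous vertex
  have prev : ∀ y, Ar D u y → (u, y, v) ∈ T → y = x (k - 1) ∧ w (k - 1) ≠ q := by
    intro y hy ht
    obtain ⟨l, hl⟩ := (R.nb y).1 hy
    rw [hl] at ht
    obtain ⟨e1, e2⟩ := R.nx l v vr ht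
    have : l = k - 1 := by
      have e3 : x (l + 1) = x k := by rw [← e1, hk]
      rw [← R.inj e3]; exact (add_sub_cancel_right l 1).symm
    rw [← this]
    exact ⟨hl, e2⟩
  have next : ∀ y, Re D y → (u, v, y) ∈ T → y = x (k + 1) ∧ w k ≠ q := by
    intro y hy ht
    rw [hk] at ht
    exact R.nx k y hy ht
  have c0 := R.cor (k - 1)
  have c1 := R.cor k
  rw [f1, ← hk] at c0
  rw [← hk] at c1
  refine ⟨k - 1, by rw [f1, hk], ?_⟩
  rw [f1]
  rcases h1 with h1 | h1 <;> rcases h2 with h2 | h2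
  · -- `p, v, e`
    obtain ⟨e1, e2⟩ := prev p aup h1
    obtain ⟨e3, e4⟩ := next e er h2
    left
    rw [← e1] at c0
    rw [← e3] at c1
    refine ⟨e3.symm, ?_, ?_⟩
    · cases hw : w (k - 1)
      · exact absurd hw e2
      · exfalso
        rw [hw] at c0
        obtain ⟨_, ⟨c1, c2, c3⟩ | ⟨c1, c2, c3⟩⟩ := c0 <;>
          rcases hd with ⟨k1, k2, k3, k4, k5⟩ | ⟨k1, k2, k3, k4, k5⟩
        · exact as _ _ c3 k4
        · exact as _ _ c1 k1
        · exact as _ _ c1 k1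
        · exact as _ _ c3 k4
      · rfl
      · exfalso
        rw [hw] at c0
        obtain ⟨_, ⟨c1, c2, c3⟩ | ⟨c1, c2, c3⟩⟩ := c0 <;>
          rcases hd with ⟨k1, k2, k3, k4, k5⟩ | ⟨k1, k2, k3, k4, k5⟩
        · exact as _ _ c1 k1
        · exact as _ _ c2 k2
        · exact as _ _ c2 k2
        · exact as _ _ c1 k1
    · cases hw : w k
      · exact absurd hw e4
      · exfalso
        rw [hw] at c1
        obtain ⟨_, ⟨c1, c2, c3⟩ | ⟨c1, c2, c3⟩⟩ := c1 <;>
          rcases hd with ⟨k1, k2, k3, k4, k5⟩ | ⟨k1, k2, k3, k4, k5⟩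
        · exact as _ _ c3 k5
        · exact as _ _ c1 k2
        · exact as _ _ c1 k2
        · exact as _ _ c3 k5
      · rfl
      · exfalso
        rw [hw] at c1
        obtain ⟨_, ⟨c1, c2, c3⟩ | ⟨c1, c2, c3⟩⟩ := c1 <;>
          rcases hd with ⟨k1, k2, k3, k4, k5⟩ | ⟨k1, k2, k3, k4, k5⟩
        · exact as _ _ c1 k2
        · exact as _ _ c2 k3
        · exact as _ _ c2 k3
        · exact as _ _ c1 k2
  · exact absurd (cx.uniq (cx.rot (cx.rot h1)) (cx.rot (cx.rot h2))) hpe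
  · exact absurd (cx.uniq h1 h2) hpe
  · -- `e, v, p`
    obtain ⟨e1, e2⟩ := prev e aue h2
    obtain ⟨e3, e4⟩ := next p pr h1
    right
    rw [← e1] at c0
    rw [← e3] at c1
    refine ⟨e1.symm, ?_, ?_⟩
    · cases hw : w (k - 1)
      · exact absurd hw e2
      · rfl
      · exfalso
        rw [hw] at c0
        obtain ⟨_, ⟨c1, c2, c3⟩ | ⟨c1, c2, c3⟩⟩ := c0 <;>
          rcases hd with ⟨k1, k2, k3, k4, k5⟩ | ⟨k1, k2, k3, k4, k5⟩
        · exact as _ _ c3 k5
        · exact as _ _ c1 k3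
        · exact as _ _ c1 k3
        · exact as _ _ c3 k5
      · exfalso
        rw [hw] at c0
        obtain ⟨_, ⟨c1, c2, c3⟩ | ⟨c1, c2, c3⟩⟩ := c0 <;>
          rcases hd with ⟨k1, k2, k3, k4, k5⟩ | ⟨k1, k2, k3, k4, k5⟩
        · exact as _ _ c1 k3
        · exact as _ _ c2 k2
        · exact as _ _ c2 k2
        · exact as _ _ c1 k3
    · cases hw : w k
      · exact absurd hw e4
      · rfl
      · exfalso
        rw [hw] at c1
        obtain ⟨_, ⟨c1, c2, c3⟩ | ⟨c1, c2, c3⟩⟩ := c1 <;>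
          rcases hd with ⟨k1, k2, k3, k4, k5⟩ | ⟨k1, k2, k3, k4, k5⟩
        · exact as _ _ c3 k4
        · exact as _ _ c1 k2
        · exact as _ _ c1 k2
        · exact as _ _ c3 k4
      · exfalso
        rw [hw] at c1
        obtain ⟨_, ⟨c1, c2, c3⟩ | ⟨c1, c2, c3⟩⟩ := c1 <;>
          rcases hd with ⟨k1, k2, k3, k4, k5⟩ | ⟨k1, k2, k3, k4, k5⟩
        · exact as _ _ c1 k2
        · exact as _ _ c2 k1
        · exact as _ _ c2 k1
        · exact as _ _ c1 k2

omit [DecidableEq V] in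
theorem face_rot (hT : Ts T D a b c) {x y z : V} (h : Face T x y z) : Face T y z x := by
  have cx := hT.pl.disc.cx
  rcases h with h | h
  · exact Or.inl (cx.rot h)
  · exact Or.inr (cx.rot (cx.rot h))

omit [DecidableEq V] in
theorem face_swap {x y z : V} (h : Face T x y z) : Face T x z y := Or.symm h

/-- **a request at `u` is a request pattern in the word of `u`** -/
theorem req_pat (hT : Ts T D a b c) {v u e : V} (h : Req T D v u e) (hn : ¬ Nsp T D u e)
    {n : ℕ} {x : Fin (n + 1) → V} {w : Fin (n + 1) → CT} (R : Rot T D u n x w) :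
    ∃ i, x (i + 1) = v ∧ (rqL (w (i - 1)) (w i) (w (i + 1)) = true ∨
      rqR (w i) (w (i + 1)) (w (i + 1 + 1)) = true) := by
  have as := hT.pl.asymm
  obtain ⟨x1, x2, x3, x4, hx, h⟩ := h
  have key : ∃ p, p ≠ e ∧ Face T u p v ∧ Face T u v e ∧
      ((D u p ∧ D u v ∧ D u e ∧ D p v ∧ D v e) ∨
        (D p u ∧ D v u ∧ D e u ∧ D v p ∧ D e v)) := by
    rcases h with ⟨rfl, rfl⟩ | ⟨rfl, rfl⟩
    · refine ⟨x1, ?_, face_swap (face_rot hT (face_rot hT hx.f12)),
        face_swap (face_rot hT hx.f23), Or.inl ⟨hx.h21, hx.h2, hx.h23, hx.h1,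
          hx.h3⟩⟩
      intro k
      exact as _ _ hx.h1 (k ▸ hx.h3)
    · refine ⟨x4, ?_, face_rot hT hx.f34, ?_, Or.inr ⟨hx.h43, hx.h3, hx.h23, hx.h4, hx.h2⟩⟩
      · intro k
        exact as _ _ hx.h4 (k ▸ hx.h2)
      · exact face_rot hT (face_rot hT hx.f23)
  obtain ⟨p, k1, k2, k3, k4⟩ := key
  obtain ⟨i, i1, ⟨i2, i3, i4⟩ | ⟨i2, i3, i4⟩⟩ := two_cor hT k2 k3 k1 k4 R
  · refine ⟨i, i1, Or.inr ?_⟩
    have k5 := cov_next hT R (j := i + 1) (by rw [i2]; exact hn)
    simp [rqR, i3, i4, k5, ceq]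
  · refine ⟨i, i1, Or.inl ?_⟩
    have k5 := cov_prev hT R (j := i) (by rw [i2]; exact hn)
    simp [rqL, i3, i4, k5, ceq]

/-- **the number of requests at an inner vertex** -/
theorem tb_le_inner [Infinite V] (hM : MCw T D a b c) (hT : Ts T D a b c)
    (hC : Ctx T X D a b c Z) {u : V} (hu : In X D Z u) {n : ℕ} {x : Fin (n + 1) → V}
    {w : Fin (n + 1) → CT} (R : Rot T D u n x w) : tb T X D Z u ≤ tR w + tL w := by
  classical
  have key : ∀ v, In X D Z v → (∃ e, Req T D v u e) →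
      ∃ i, x (i + 1) = v ∧ (rqL (w (i - 1)) (w i) (w (i + 1)) = true ∨
        rqR (w i) (w (i + 1)) (w (i + 1 + 1)) = true) := by
    rintro v hv ⟨e, he⟩
    refine req_pat hT he ?_ R
    obtain ⟨x1, x2, x3, x4, hx, ⟨e1, e2⟩ | ⟨e1, e2⟩⟩ := he
    · subst e1 e2
      exact x1v_special hM hT hC hv hx (Or.inl hu.2.2)
    · subst e1 e2
      exact fun k => x1v_special hM hT hC hv hx (Or.inr hu.2.2) (sh_comm hT k)
  unfold tb tR tL
  rw [add_comm]
  refine le_trans ?_ (Finset.card_union_le _ _)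
  have key' : ∀ v ∈ (inn X D Z).filter (fun v => ∃ e, Req T D v u e),
      ∃ i, x (i + 1) = v ∧ (rqL (w (i - 1)) (w i) (w (i + 1)) = true ∨
        rqR (w i) (w (i + 1)) (w (i + 1 + 1)) = true) := by
    intro v hv
    rw [Finset.mem_filter, mem_inn] at hv
    exact key v hv.1 hv.2
  choose! g hg using key'
  refine Finset.card_le_card_of_injOn g ?_ ?_
  · intro v hv
    have h := (hg v hv).2
    rw [Finset.mem_coe, Finset.mem_union, Finset.mem_filter, Finset.mem_filter]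
    rcases h with h | h
    · exact Or.inl ⟨Finset.mem_univ _, h⟩
    · exact Or.inr ⟨Finset.mem_univ _, h⟩
  · intro v hv v' hv' e
    rw [← (hg v hv).1, ← (hg v' hv').1, e]

end Pool.Agent.H39.G4
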