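import Pool.Agent.H72.G4.Dis
import Pool.Agent.H35.G4.DisW

/-!
# The donor side of the discharging

An ask at an inner donor `v` across the quad with dummy `d` is at the quad corner `j` of `v`
whose dummy is `d`; the corner can be asked (`ask`), it is open for a path contraction
(`¬ PCok`), and there is at most one asker for each corner.
-/

set_option autoImplicit false

namespace Pool.Agent.H39.G4

open Relation Pool.Agent.H13.DA Pool.Agent.H21.G4 Pool.Agent.H96.G4 Pool.Agent.H32.G4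
open Pool.Agent.H13.G4 Pool.Agent.H72.G4
open Pool.Agent.H35.G4 (ask ceq ceq_iff)
open CT

variable {V : Type*} [DecidableEq V] {T X : Finset (V × V × V)} {D : V → V → Prop} {a b c : V}
  {Z : List V}

omit [DecidableEq V] in
theorem sh_comm (hT : Ts T D a b c) {x y : V} (h : Sh T D x y) : Sh T D y x := by
  have cx := hT.pl.disc.cx
  obtain ⟨z, h1, h2 | h2, h3⟩ := h
  · exact ⟨z, h1, Or.inr (cx.rot h2), h3.symm⟩
  · exact ⟨z, h1, Or.inl (cx.rot (cx.rot h2)), h3.symm⟩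

omit [DecidableEq V] in
theorem midS_sh (hT : Ts T D a b c) {u o : V} (h : MidS T D u o) : Sh T D u o := by
  have as := hT.pl.asymm
  obtain ⟨z, h1, h2, h3⟩ := h
  refine ⟨z, h1, h2, ?_⟩
  rcases h3 with ⟨k1, k2, k3⟩ | ⟨k1, k2, k3⟩
  · exact ⟨fun h => absurd h (as _ _ k2), fun h => absurd h (as _ _ k3)⟩
  · exact ⟨fun _ => k3, fun _ => k1⟩

omit [DecidableEq V] in
theorem _root_.Pool.Agent.H72.G4.Qz.mir {u o f i d : V} (h : Qz T D u o f i d) :
    Qz T D u i f o d := by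
  obtain ⟨h1, h2, h3⟩ := h
  refine ⟨h1, fun y => ?_, ?_⟩
  · rw [h2]; tauto
  · rcases h3 with ⟨k1, k2, k3, k4⟩ | ⟨k1, k2, k3, k4⟩
    · exact Or.inr ⟨k4, k3, k2, k1⟩
    · exact Or.inl ⟨k4, k3, k2, k1⟩

omit [DecidableEq V] in
theorem _root_.Pool.Agent.H72.G4.Qz.rot {u o f i d : V} (h : Qz T D u o f i d) :
    Qz T D o f i u d := by
  obtain ⟨h1, h2, h3⟩ := h
  refine ⟨h1, fun y => ?_, ?_⟩
  · rw [h2]; tauto
  · rcases h3 with ⟨k1, k2, k3, k4⟩ | ⟨k1, k2, k3, k4⟩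
    · exact Or.inl ⟨k2, k3, k4, k1⟩
    · exact Or.inr ⟨k2, k3, k4, k1⟩

omit [DecidableEq V] in
theorem qz_ar {u o f i d : V} (h : Qz T D u o f i d) : Ar D u o := by
  rcases h.dir with ⟨k1, k2, k3, k4⟩ | ⟨k1, k2, k3, k4⟩
  · exact Or.inl k1
  · exact Or.inr k1

omit [DecidableEq V] in
theorem qz_far (hT : Ts T D a b c) {u o f i d : V} (h : Qz T D u o f i d) : ¬ Ar D u f := by
  rcases h.dir with ⟨k1, k2, k3, k4⟩ | ⟨k1, k2, k3, k4⟩
  · rintro (h | h)
    · exact hT.pl.tri _ _ _ h k3 k4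
    · exact hT.pl.tri _ _ _ k1 k2 h
  · rintro (h | h)
    · exact hT.pl.tri _ _ _ k2 k1 h
    · exact hT.pl.tri _ _ _ k4 k3 h

/-- no edge in both directions in the link of a dummy -/
theorem no2 [Infinite V] (hT : Ts T D a b c) {u o d : V} (hd : ¬ Re D d) (h1 : (u, o, d) ∈ T)
    (h2 : (u, d, o) ∈ T) : False := by
  have cx := hT.pl.disc.cx
  have hv : d ∉ [a, b, c] := fun h => hd ((reg_self hT).re d h)
  obtain ⟨L, l1, l2, l3, l4, l5⟩ := Pool.Agent.H13.G4.link hT.pl.disc hT.pl.bd (vert2 cx h2) hv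
  exact cyc_no2 l1 l2 ((l4 _ _).1 (cx.rot (cx.rot h1))) ((l4 _ _).1 (cx.rot h2))

/-- the corner of `u` with dummy `d` -/
theorem qz_corner [Infinite V] (hT : Ts T D a b c) {u o f i d : V} (hu : ¬ Tr a b c u)
    (h : Qz T D u o f i d) {n : ℕ} {x : Fin (n + 1) → V} {w : Fin (n + 1) → CT}
    (R : Rot T D u n x w) : ∃ j, w j = q ∧ (u, x j, d) ∈ T ∧ (u, d, x (j + 1)) ∈ T ∧
      ((x j = o ∧ x (j + 1) = i) ∨ (x j = i ∧ x (j + 1) = o)) := by
  have cx := hT.pl.disc.cx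
  have hur : Re D u := (ar_re (qz_ar h)).1
  have hdu : Adj T d u := (h.adj u).2 (Or.inl rfl)
  have hdo : Adj T d o := (h.adj o).2 (Or.inr (Or.inl rfl))
  have huo : Ar D u o := qz_ar h
  have rx : ∀ k, Re D (x k) := fun k => (ar_re ((R.nb _).2 ⟨k, rfl⟩)).2
  obtain ⟨k, hk⟩ := (R.nb o).1 huo
  have hne : ∀ {y : V}, Ar D u y → Adj T d y → y ≠ o → y = i := by
    intro y h1 h2 h3
    rcases (h.adj y).1 h2 with e | e | e | e
    · rw [e] at h1
      exact absurd rfl (ar_ne cx hT.pl h1)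
    · exact absurd e h3
    · rw [e] at h1
      exact absurd h1 (qz_far hT h)
    · exact e
  rcases hT.fc u o d (hT.pl.ar_adj huo) hdo.symm hdu with (m | m) | ⟨m, _⟩
  · -- the dummy after `o`
    have hq : w k = q := by
      by_contra hq
      have e := (R.cor k).ne_mid hq
      rw [hk] at m
      exact h.nd (cx.uniq m e ▸ rx _)
    have hc := R.cor k
    rw [hq] at hc
    obtain ⟨⟨d', e1, e2, e3⟩, _⟩ := hc
    rw [hk] at m
    have hdd := cx.uniq m e2
    subst hdd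
    have hx : x (k + 1) = i := by
      refine hne ((R.nb _).2 ⟨_, rfl⟩) (Or.inl ⟨u, cx.rot e3⟩) ?_
      rw [hk]
      intro e
      rw [e] at e3
      exact no2 hT h.nd m e3
    exact ⟨k, hq, e2, e3, Or.inl ⟨hk.symm, hx⟩⟩
  · -- the dummy before `o`
    have f1 : k - 1 + 1 = k := sub_add_cancel k 1
    have hq : w (k - 1) = q := by
      by_contra hq
      have e := (R.cor (k - 1)).ne_mid hq
      rw [f1, ← hk] at e
      exact h.nd (cx.uniq (cx.rot (cx.rot m)) (cx.rot (cx.rot e)) ▸ rx _)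
    have hc := R.cor (k - 1)
    rw [hq, f1, ← hk] at hc
    obtain ⟨⟨d', e1, e2, e3⟩, _⟩ := hc
    have hdd := cx.uniq (cx.rot (cx.rot m)) (cx.rot (cx.rot e3))
    subst hdd
    have hx : x (k - 1) = i := by
      refine hne ((R.nb _).2 ⟨_, rfl⟩) (Or.inr ⟨u, cx.rot e2⟩) ?_
      intro e
      rw [e] at e2
      exact no2 hT h.nd e2 e3
    refine ⟨k - 1, hq, e2, ?_, Or.inr ⟨hx, ?_⟩⟩
    · rw [f1, ← hk]; exact e3
    · rw [f1, hk]
  · exact absurd m hu

/-- not short, right neighbour: the next corner covers the spoke -/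
theorem cov_next (hT : Ts T D a b c) {v : V} {n : ℕ} {x : Fin (n + 1) → V}
    {w : Fin (n + 1) → CT} (R : Rot T D v n x w) {j : Fin (n + 1)}
    (h : ¬ Sh T D v (x (j + 1))) : (w (j + 1)).cl = true := by
  by_contra hc
  rw [Bool.not_eq_true] at hc
  obtain ⟨k1, k2, k3, k4⟩ := (R.cor (j + 1)).left hT hc
  exact h ⟨_, (ar_re k2).2, Or.inl k1, k4.symm⟩

/-- not short, left neighbour: the previous corner covers the spoke -/
theorem cov_prev (hT : Ts T D a b c) {v : V} {n : ℕ} {x : Fin (n + 1) → V}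
    {w : Fin (n + 1) → CT} (R : Rot T D v n x w) {j : Fin (n + 1)}
    (h : ¬ Sh T D v (x j)) : (w (j - 1)).cr = true := by
  have f1 : j - 1 + 1 = j := sub_add_cancel j 1
  by_contra hc
  rw [Bool.not_eq_true] at hc
  obtain ⟨k1, k2, k3, k4⟩ := (R.cor (j - 1)).right hT hc
  rw [f1] at k1 k3 k4
  exact h ⟨_, (ar_re k2).2, Or.inr k1, k4.symm⟩

omit [DecidableEq V] in
/-- the asker is the left neighbour at the corner of the donor: the previous corner has type
`s1` -/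
theorem side_prev (hT : Ts T D a b c) {v u d : V} {n : ℕ} {x : Fin (n + 1) → V}
    {w : Fin (n + 1) → CT} (R : Rot T D v n x w) {j : Fin (n + 1)} (hd : ¬ Re D d)
    (hj : x j = u) (hjd : (v, u, d) ∈ T) (hm : MidS T D u v) : w (j - 1) = s1 := by
  have cx := hT.pl.disc.cx
  have as := hT.pl.asymm
  obtain ⟨z, z1, z2, z3⟩ := hm
  have hz : (v, z, u) ∈ T := by
    rcases z2 with z2 | z2
    · exact cx.rot z2
    · exact absurd z1 (cx.uniq hjd (cx.rot (cx.rot z2)) ▸ hd)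
  have hvz : Ar D v z := by
    rcases z3 with ⟨k1, k2, k3⟩ | ⟨k1, k2, k3⟩
    · exact Or.inl k3
    · exact Or.inr k3
  have hur : Re D u := by
    rcases z3 with ⟨k1, k2, k3⟩ | ⟨k1, k2, k3⟩
    · exact ⟨_, Or.inl k2⟩
    · exact ⟨_, Or.inl k2⟩
  obtain ⟨k, hk⟩ := (R.nb z).1 hvz
  rw [hk] at hz
  obtain ⟨e1, e2⟩ := R.nx k u hur hz
  have ek : k = j - 1 := by
    have : x (k + 1) = x j := by rw [← e1, hj]
    rw [← R.inj this]; exact (add_sub_cancel_right k 1).symm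
  rw [← ek]
  have hc := R.cor k
  rw [← e1, ← hk] at hc
  cases hw : w k
  · exact absurd hw e2
  · rfl
  · exfalso
    rw [hw] at hc
    obtain ⟨_, ⟨c1, c2, c3⟩ | ⟨c1, c2, c3⟩⟩ := hc <;>
      rcases z3 with ⟨k1, k2, k3⟩ | ⟨k1, k2, k3⟩
    · exact as _ _ c3 k2
    · exact as _ _ c1 k3
    · exact as _ _ c1 k3
    · exact as _ _ c3 k1
  · exfalso
    rw [hw] at hc
    obtain ⟨_, ⟨c1, c2, c3⟩ | ⟨c1, c2, c3⟩⟩ := hc <;>
      rcases z3 with ⟨k1, k2, k3⟩ | ⟨k1, k2, k3⟩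
    · exact as _ _ c1 k3
    · exact as _ _ c2 k2
    · exact as _ _ c2 k1
    · exact as _ _ c1 k3

omit [DecidableEq V] in
/-- the asker is the right neighbour at the corner of the donor: the next corner has type
`s2` -/
theorem side_next (hT : Ts T D a b c) {v u d : V} {n : ℕ} {x : Fin (n + 1) → V}
    {w : Fin (n + 1) → CT} (R : Rot T D v n x w) {j : Fin (n + 1)} (hd : ¬ Re D d)
    (hj : x (j + 1) = u) (hjd : (v, d, u) ∈ T) (hm : MidS T D u v) : w (j + 1) = s2 := by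
  have cx := hT.pl.disc.cx
  have as := hT.pl.asymm
  obtain ⟨z, z1, z2, z3⟩ := hm
  have hz : (v, u, z) ∈ T := by
    rcases z2 with z2 | z2
    · exact absurd z1 (cx.uniq (cx.rot (cx.rot hjd)) z2 ▸ hd)
    · exact cx.rot (cx.rot z2)
  have hvz : Ar D v z := by
    rcases z3 with ⟨k1, k2, k3⟩ | ⟨k1, k2, k3⟩
    · exact Or.inl k3
    · exact Or.inr k3
  rw [← hj] at hz
  obtain ⟨e1, e2⟩ := R.nx (j + 1) z z1 hz
  have hc := R.cor (j + 1)
  rw [← e1, hj] at hc
  cases hw : w (j + 1)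
  · exact absurd hw e2
  · exfalso
    rw [hw] at hc
    obtain ⟨_, ⟨c1, c2, c3⟩ | ⟨c1, c2, c3⟩⟩ := hc <;>
      rcases z3 with ⟨k1, k2, k3⟩ | ⟨k1, k2, k3⟩
    · exact as _ _ c3 k2
    · exact as _ _ c2 k3
    · exact as _ _ c2 k3
    · exact as _ _ c3 k1
  · rfl
  · exfalso
    rw [hw] at hc
    obtain ⟨_, ⟨c1, c2, c3⟩ | ⟨c1, c2, c3⟩⟩ := hc <;>
      rcases z3 with ⟨k1, k2, k3⟩ | ⟨k1, k2, k3⟩
    · exact as _ _ c1 k1
    · exact as _ _ c2 k3
    · exact as _ _ c2 k3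
    · exact as _ _ c1 k2

/-- the four corners of a quad at an inner vertex are vertices of the region -/
theorem qz_verts (hT : Ts T D a b c) (hR : Reg T X D Z) {u o f i d : V} (hu : In X D Z u)
    (h : Qz T D u o f i d) : ∀ y, Adj T d y → y ∈ verts X := by
  have cx := hT.pl.disc.cx
  have cX := hR.disc.cx
  obtain ⟨u1, u2, u3⟩ := hu
  have hdX : d ∈ verts X := by
    rcases (h.adj u).2 (Or.inl rfl) with ⟨z, hz⟩ | ⟨z, hz⟩
    · exact vert3 cX (hR.tri_in u1 u3 (cx.rot hz))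
    · exact vert2 cX (hR.tri_in u1 u3 hz)
  have hdZ : d ∉ Z := fun k => h.nd (hR.re d k)
  intro y hy
  rcases hy with ⟨z, hz⟩ | ⟨z, hz⟩
  · exact vert2 cX (hR.tri_in hdX hdZ hz)
  · exact vert3 cX (hR.tri_in hdX hdZ (cx.rot hz))

omit [DecidableEq V] in
/-- the corner is open for a path contraction -/
theorem not_pcok (hT : Ts T D a b c) {v p s r d : V} {n : ℕ} {x : Fin (n + 1) → V}
    {j : Fin (n + 1)} (h : Qz T D v p s r d) (hj : (x j = p ∧ x (j + 1) = r) ∨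
      (x j = r ∧ x (j + 1) = p)) (hp : In X D Z p) (hs : In X D Z s) (hr : In X D Z r)
    (h1 : Sh T D p s) (h2 : Sh T D s r) : ¬ PCok T X D Z v x j := by
  intro hP
  rcases hj with ⟨e1, e2⟩ | ⟨e1, e2⟩
  · refine hP s d h.nd (fun y => ?_) ?_ ?_ hs ?_ ?_ ?_
    · rw [e1, e2]; exact h.adj y
    · rw [e1, e2]; exact h.dir
    · rw [e1]; exact hp
    · rw [e2]; exact hr
    · rw [e1]; exact h1
    · rw [e2]; exact h2
  · have h' := h.mir
    refine hP s d h'.nd (fun y => ?_) ?_ ?_ hs ?_ ?_ ?_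
    · rw [e1, e2]; exact h'.adj y
    · rw [e1, e2]; exact h'.dir
    · rw [e1]; exact hr
    · rw [e2]; exact hp
    · rw [e1]; exact sh_comm hT h2
    · rw [e2]; exact sh_comm hT h1

/-- **The donor side.** -/
theorem donor [Infinite V] (hT : Ts T D a b c) (hR : Reg T X D Z) {u d v : V}
    (hu : In X D Z u) (hv : In X D Z v) (hd : Don T D Z u d v) {n : ℕ}
    {x : Fin (n + 1) → V} {w : Fin (n + 1) → CT} (R : Rot T D v n x w) :
    ∃ j, (v, x j, d) ∈ T ∧ (v, d, x (j + 1)) ∈ T ∧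
      ask (w (j - 1)) (w j) (w (j + 1)) = true ∧ ¬ PCok T X D Z v x j := by
  have hvT : ¬ Tr a b c v := hR.inner hT hv.1 hv.2.2
  obtain ⟨o, f, i, h, m1, m2, h3⟩ := hd
  have hV := qz_verts hT hR hu h
  have re := fun y hy => Ts.dummy_nbr hT h.nd (y := y) hy
  have inn : ∀ y, Adj T d y → y ∉ Z → In X D Z y := fun y hy hyZ => ⟨hV y hy, re y hy, hyZ⟩
  have ao : Adj T d o := (h.adj o).2 (Or.inr (Or.inl rfl))
  have af : Adj T d f := (h.adj f).2 (Or.inr (Or.inr (Or.inl rfl)))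
  have ai : Adj T d i := (h.adj i).2 (Or.inr (Or.inr (Or.inr rfl)))
  rcases h3 with ⟨rfl, h4⟩ | ⟨_, _, rfl, h4⟩ | ⟨oZ, iZ, fZ, ⟨rfl, s1', s2'⟩ | ⟨rfl, s1', s2'⟩⟩
  · exact absurd h4 hv.2.2
  · exact absurd h4 hv.2.2
  · -- the donor is a neighbour of the asker
    have h' : Qz T D v u i f d := h.rot.mir
    obtain ⟨j, j1, j2, j3, j4⟩ := qz_corner hT hvT h' R
    refine ⟨j, j2, j3, ?_, ?_⟩
    · rcases j4 with ⟨e1, e2⟩ | ⟨e1, e2⟩
      · have k1 := side_prev hT R h.nd e1 (e1 ▸ j2) m1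
        have k2 := cov_next hT R (j := j) (by rw [e2]; exact s2')
        simp [ask, j1, k1, k2, ceq]
      · have k1 := side_next hT R h.nd e2 (e2 ▸ j3) m1
        have k2 := cov_prev hT R (j := j) (by rw [e1]; exact s2')
        simp [ask, j1, k1, k2, ceq]
    · exact not_pcok hT h' j4 hu (inn i ai iZ) (inn f af fZ) (midS_sh hT m2)
        (sh_comm hT s1')
  · -- the donor is the far vertex
    have h' : Qz T D v i u o d := h.rot.rot
    obtain ⟨j, j1, j2, j3, j4⟩ := qz_corner hT hvT h' R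
    have t1 : ¬ Sh T D v o := fun k => s2' (sh_comm hT k)
    refine ⟨j, j2, j3, ?_, ?_⟩
    · have k1 := cov_next hT R (j := j) (by
        rcases j4 with ⟨e1, e2⟩ | ⟨e1, e2⟩ <;> rw [e2]
        · exact t1
        · exact s1')
      have k2 := cov_prev hT R (j := j) (by
        rcases j4 with ⟨e1, e2⟩ | ⟨e1, e2⟩ <;> rw [e1]
        · exact s1'
        · exact t1)
      simp [ask, j1, k1, k2, ceq]
    · exact not_pcok hT h' j4 (inn i ai iZ) hu (inn o ao oZ) (sh_comm hT (midS_sh hT m2))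
        (midS_sh hT m1)

/-- the asker seen from the donor -/
theorem don_cases (hT : Ts T D a b c) {u d v : V} (hv : v ∉ Z) (hd : Don T D Z u d v) :
    Adj T d u ∧ ((Ar D v u ∧ Sh T D v u ∧ ∀ y, Adj T d y → Ar D v y → y ≠ u → ¬ Sh T D v y) ∨
      (¬ Ar D v u ∧ u ≠ v ∧ (∀ y, Adj T d y → Ar D v y → ¬ Sh T D v y) ∧
        ∀ y, Adj T d y → y ≠ v → ¬ Ar D v y → y = u)) := by
  have cx := hT.pl.disc.cx
  have ne : ∀ {x y : V}, Ar D x y → x ≠ y := fun h => ar_ne cx hT.pl h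
  obtain ⟨o, f, i, h, m1, m2, h3⟩ := hd
  have au : Adj T d u := (h.adj u).2 (Or.inl rfl)
  rcases h3 with ⟨rfl, h4⟩ | ⟨_, _, rfl, h4⟩ | ⟨oZ, iZ, fZ, ⟨rfl, s1', s2'⟩ | ⟨rfl, s1', s2'⟩⟩
  · exact absurd h4 hv
  · exact absurd h4 hv
  · refine ⟨au, Or.inl ⟨ar_symm (qz_ar h), sh_comm hT (midS_sh hT m1), ?_⟩⟩
    intro y y1 y2 y3
    rcases (h.adj y).1 y1 with e | e | e | e
    · exact absurd e y3
    · exact absurd e.symm (ne y2)
    · rw [e]; exact s2'
    · rw [e] at y2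
      exact absurd y2 (qz_far hT h.rot)
  · have h' : Qz T D v i u o d := h.rot.rot
    refine ⟨au, Or.inr ⟨qz_far hT h', ?_, ?_, ?_⟩⟩
    · intro e
      have k := qz_ar h
      rw [e] at k
      rcases h.dir with ⟨k1, k2, k3, k4⟩ | ⟨k1, k2, k3, k4⟩
      · rw [e] at k1
        exact hT.pl.asymm _ _ k1 k2
      · rw [e] at k1
        exact hT.pl.asymm _ _ k1 k2
    · intro y y1 y2
      rcases (h.adj y).1 y1 with e | e | e | e
      · rw [e] at y2
        exact absurd y2 (qz_far hT h')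
      · rw [e]; exact fun k => s2' (sh_comm hT k)
      · exact absurd e.symm (ne y2)
      · rw [e]; exact s1'
    · intro y y1 y2 y3
      rcases (h.adj y).1 y1 with e | e | e | e
      · exact e
      · rw [e] at y3
        exact absurd (ar_symm (qz_ar h.rot)) y3
      · exact absurd e y2
      · rw [e] at y3
        exact absurd (qz_ar h') y3

/-- **at most one asker for a donor and a dummy** -/
theorem donor_uniq (hT : Ts T D a b c) {u u' d v : V} (hv : v ∉ Z) (hd : Don T D Z u d v)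
    (hd' : Don T D Z u' d v) : u = u' := by
  obtain ⟨a1, a2⟩ := don_cases hT hv hd
  obtain ⟨b1, b2⟩ := don_cases hT hv hd'
  rcases a2 with ⟨c1, c2, c3⟩ | ⟨c1, c2, c3, c4⟩ <;>
    rcases b2 with ⟨e1, e2, e3⟩ | ⟨e1, e2, e3, e4⟩
  · by_contra hne
    exact c3 u' b1 e1 (fun h => hne h.symm) e2
  · exact absurd c2 (e3 u a1 c1)
  · exact absurd e2 (c3 u' b1 e1)
  · exact (c4 u' b1 e2 e1).symm

open Classical in
/-- **The number of asks at an inner donor.** -/
theorem donor_card [Infinite V] (hT : Ts T D a b c) (hR : Reg T X D Z) {v : V}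
    (hv : In X D Z v) {n : ℕ} {x : Fin (n + 1) → V} {w : Fin (n + 1) → CT}
    (R : Rot T D v n x w) (K : Finset (V × V))
    (hK : ∀ p ∈ K, In X D Z p.1 ∧ Don T D Z p.1 p.2 v) :
    K.card ≤ (Finset.univ.filter (fun j => ask (w (j - 1)) (w j) (w (j + 1)) = true ∧
      ¬ PCok T X D Z v x j)).card := by
  have cx := hT.pl.disc.cx
  have key : ∀ p ∈ K, ∃ j, (v, x j, p.2) ∈ T ∧ (v, p.2, x (j + 1)) ∈ T ∧
      ask (w (j - 1)) (w j) (w (j + 1)) = true ∧ ¬ PCok T X D Z v x j := fun p hp =>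
    donor hT hR (hK p hp).1 hv (hK p hp).2 R
  choose! g hg using key
  refine Finset.card_le_card_of_injOn g ?_ ?_
  · intro p hp
    have h := hg p hp
    simp only [Finset.coe_filter, Finset.mem_univ, true_and, Set.mem_setOf_eq]
    exact ⟨h.2.2.1, h.2.2.2⟩
  · rintro ⟨u, d⟩ hp ⟨u', d'⟩ hp' e
    have h := (hg _ hp).1
    have h' := (hg _ hp').1
    rw [e] at h
    have hd : d = d' := cx.uniq h h'
    subst hd
    have := donor_uniq hT hv.2.2 (hK _ hp).2 (hK _ hp').2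
    simp only at this
    rw [this]

end Pool.Agent.H39.G4
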